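import Pool.Agent.Helper841_BS.Channel

/-!
# Binarization independence for one copy, and for letterwise binarizations of any number of copies

For every `a ≥ 3/4`:

* `N = 1`: for all binarizations of `X` and of `Y` Eve has a channel of `Z` making them
  conditionally independent;
* every `N`: the same if each party first binarizes each letter separately (by arbitrary stochastic
  maps) and then processes the `N` bits in an arbitrary (stochastic) way.
-/

set_option autoImplicit false

namespace Pool.Agent.Results.MP_c084cb_lc.LetterwiseBinarizations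

open Pool.Agent.Helper841_BS

/-- The probability that the output of `KX` (applied to `X^N`), the output of `KY` (applied to
`Y^N`) and the output of the channel `KZ` (applied to `Z^N`) are `b`, `c` and `s`. -/
noncomputable def joint (a : ℝ) {N : ℕ} {S : Type} (KX KY : (Fin N → Fin 4) → Bool → ℝ)
    (KZ : (Fin N → ZT) → S → ℝ) (b c : Bool) (s : S) : ℝ :=
  ∑ x : Fin N → Fin 4, ∑ y : Fin N → Fin 4,
    (∏ i, P a (x i) (y i)) * (KX x b * KY y c * KZ (fun i => Z (x i) (y i)) s)

/-- The two outputs are conditionally independent given each value of the output of the channel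
that has positive probability. -/
def CondIndep (a : ℝ) {N : ℕ} {S : Type} (KX KY : (Fin N → Fin 4) → Bool → ℝ)
    (KZ : (Fin N → ZT) → S → ℝ) : Prop :=
  ∀ s, 0 < (∑ b, ∑ c, joint a KX KY KZ b c s) → ∀ b c,
    joint a KX KY KZ b c s * (∑ b', ∑ c', joint a KX KY KZ b' c' s) =
      (∑ c', joint a KX KY KZ b c' s) * (∑ b', joint a KX KY KZ b' c s)

/-- There is a channel (into a finite set) of `Z^N` given whose output the two binarizations are
conditionally independent. -/
def EveCan (a : ℝ) {N : ℕ} (KX KY : (Fin N → Fin 4) → Bool → ℝ) : Prop :=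
  ∃ (S : Type) (_ : Fintype S) (KZ : (Fin N → ZT) → S → ℝ), IsKernel KZ ∧ CondIndep a KX KY KZ

/-- `K` first turns each letter into a bit, by stochastic maps with independent randomness, and then
processes the bits by a stochastic map. -/
def Letterwise {N : ℕ} (K : (Fin N → Fin 4) → Bool → ℝ) : Prop :=
  ∃ (β : Fin N → Fin 4 → Bool → ℝ) (F : (Fin N → Bool) → Bool → ℝ),
    (∀ i, IsKernel (β i)) ∧ IsKernel F ∧
      ∀ x b, K x b = ∑ u : Fin N → Bool, (∏ i, β i (x i) (u i)) * F u b

/-! ### Products -/

theorem sum_sum_prod {N : ℕ} {A B : Type} [Fintype A] [Fintype B] (h : Fin N → A → B → ℝ) :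
    ∑ x : Fin N → A, ∑ y : Fin N → B, ∏ i, h i (x i) (y i) = ∏ i, ∑ a, ∑ b, h i a b := by
  rw [Fintype.prod_sum]
  apply Finset.sum_congr rfl
  intro x _
  rw [Fintype.prod_sum]

/-- bits obtained from `φ` -/
theorem kernel_false {A : Type} {β : A → Bool → ℝ} (h : IsKernel β) (x : A) :
    β x false = 1 - β x true := by
  have := h.2 x
  rw [Fintype.sum_bool] at this
  linarith

/-- independence of two bits from vanishing covariance -/
theorem indep_of_cv {W : Fin 4 → Fin 4 → ℝ} {β γ : Fin 4 → Bool → ℝ} (hβ : IsKernel β)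
    (hγ : IsKernel γ) (h : cv W (fun x => β x true) (fun y => γ y true) = 0) (b c : Bool) :
    (∑ x, ∑ y, W x y * (β x b * γ y c)) * (∑ x, ∑ y, W x y) =
      (∑ x, ∑ y, W x y * β x b) * (∑ x, ∑ y, W x y * γ y c) := by
  have e1 : ∑ x, ∑ y, W x y * (β x false * γ y true) =
      (∑ x, ∑ y, W x y * γ y true) - ∑ x, ∑ y, W x y * (β x true * γ y true) := by
    simp only [kernel_false hβ, ← Finset.sum_sub_distrib]
    apply Finset.sum_congr rfl; intro x _
    apply Finset.sum_congr rfl; intro y _
    ring
  have e2 : ∑ x, ∑ y, W x y * (β x true * γ y false) =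
      (∑ x, ∑ y, W x y * β x true) - ∑ x, ∑ y, W x y * (β x true * γ y true) := by
    simp only [kernel_false hγ, ← Finset.sum_sub_distrib]
    apply Finset.sum_congr rfl; intro x _
    apply Finset.sum_congr rfl; intro y _
    ring
  have e3 : ∑ x, ∑ y, W x y * β x false = (∑ x, ∑ y, W x y) - ∑ x, ∑ y, W x y * β x true := by
    simp only [kernel_false hβ, ← Finset.sum_sub_distrib]
    apply Finset.sum_congr rfl; intro x _
    apply Finset.sum_congr rfl; intro y _
    ring
  have e4 : ∑ x, ∑ y, W x y * γ y false = (∑ x, ∑ y, W x y) - ∑ x, ∑ y, W x y * γ y true := by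
    simp only [kernel_false hγ, ← Finset.sum_sub_distrib]
    apply Finset.sum_congr rfl; intro x _
    apply Finset.sum_congr rfl; intro y _
    ring
  have e5 : ∑ x, ∑ y, W x y * (β x false * γ y false) =
      (∑ x, ∑ y, W x y) - (∑ x, ∑ y, W x y * β x true) - (∑ x, ∑ y, W x y * γ y true) +
        ∑ x, ∑ y, W x y * (β x true * γ y true) := by
    simp only [kernel_false hβ, kernel_false hγ, ← Finset.sum_sub_distrib,
      ← Finset.sum_add_distrib]
    apply Finset.sum_congr rfl; intro x _
    apply Finset.sum_congr rfl; intro y _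
    ring
  unfold cv at h
  cases b <;> cases c
  · rw [e5, e3, e4]; linear_combination h
  · rw [e1, e3]; linear_combination -h
  · rw [e2, e4]; linear_combination -h
  · linear_combination h

/-! ### Letterwise binarizations -/

theorem letterwise {a : ℝ} (ha : 3/4 ≤ a) {N : ℕ} {KX KY : (Fin N → Fin 4) → Bool → ℝ}
    (hX : Letterwise KX) (hY : Letterwise KY) : EveCan a KX KY := by
  obtain ⟨β, F, hβ, hF, hKX⟩ := hX
  obtain ⟨γ, G, hγ, hG, hKY⟩ := hY
  choose κ hκ hκ0 using fun i => exists_channel ha (fun x => β i x true) (fun y => γ i y true)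
  refine ⟨Fin N → ZT, inferInstance, fun z s => ∏ i, κ i (z i) (s i), ⟨?_, ?_⟩, ?_⟩
  · intro z s
    exact Finset.prod_nonneg fun i _ => (hκ i).1 _ _
  · intro z
    have h1 := (Fintype.prod_sum (fun i (s : ZT) => κ i (z i) s)).symm
    rw [h1]
    exact Finset.prod_eq_one fun i _ => (hκ i).2 _
  intro s _ b c
  -- single-letter quantities
  let W : Fin N → Fin 4 → Fin 4 → ℝ := fun i x y => P a x y * κ i (Z x y) (s i)
  let Q : Fin N → Bool → Bool → ℝ := fun i u v => ∑ x, ∑ y, W i x y * (β i x u * γ i y v)
  let A : Fin N → Bool → ℝ := fun i u => ∑ x, ∑ y, W i x y * β i x u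
  let B : Fin N → Bool → ℝ := fun i v => ∑ x, ∑ y, W i x y * γ i y v
  let T : Fin N → ℝ := fun i => ∑ x, ∑ y, W i x y
  have hQ : ∀ i u v, Q i u v * T i = A i u * B i v := by
    intro i u v
    apply indep_of_cv (hβ i) (hγ i)
    have h1 := hκ0 i (s i)
    have h2 : (fun x y => W i x y) = fun x y => (1 + 8 * a)⁻¹ * (w a x y * κ i (Z x y) (s i)) := by
      funext x y
      simp only [W, P]
      rw [div_eq_mul_inv]; ring
    have h3 : cv (fun x y => (1 + 8 * a)⁻¹ * (w a x y * κ i (Z x y) (s i)))
        (fun x => β i x true) (fun y => γ i y true) =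
        (1 + 8 * a)⁻¹ ^ 2 * cv (fun x y => w a x y * κ i (Z x y) (s i))
          (fun x => β i x true) (fun y => γ i y true) := by
      unfold cv
      simp only [mul_assoc, ← Finset.mul_sum]
      ring
    show cv (fun x y => W i x y) _ _ = 0
    rw [h2, h3, h1, mul_zero]
  have hjoint : ∀ b c, joint a KX KY (fun z s => ∏ i, κ i (z i) (s i)) b c s =
      ∑ u : Fin N → Bool, ∑ v : Fin N → Bool, F u b * G v c * ∏ i, Q i (u i) (v i) := by
    intro b c
    have e1 : ∀ u v : Fin N → Bool, ∏ i, Q i (u i) (v i) =
        ∑ x : Fin N → Fin 4, ∑ y : Fin N → Fin 4,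
          ∏ i, (W i (x i) (y i) * (β i (x i) (u i) * γ i (y i) (v i))) := by
      intro u v
      rw [sum_sum_prod (fun i x y => W i x y * (β i x (u i) * γ i y (v i)))]
    simp only [e1, Finset.mul_sum]
    unfold joint
    have e2 : ∀ x y : Fin N → Fin 4, (∏ i, P a (x i) (y i)) *
        (KX x b * KY y c * ∏ i, κ i (Z (x i) (y i)) (s i)) =
        ∑ u : Fin N → Bool, ∑ v : Fin N → Bool, F u b * G v c *
          ∏ i, (W i (x i) (y i) * (β i (x i) (u i) * γ i (y i) (v i))) := by
      intro x y
      rw [hKX, hKY, Finset.sum_mul_sum, Finset.sum_mul, Finset.mul_sum]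
      apply Finset.sum_congr rfl
      intro u _
      rw [Finset.sum_mul, Finset.mul_sum]
      apply Finset.sum_congr rfl
      intro v _
      simp only [W, Finset.prod_mul_distrib]
      ring
    simp only [e2]
    -- exchange the sums
    calc ∑ x : Fin N → Fin 4, ∑ y : Fin N → Fin 4, ∑ u : Fin N → Bool, ∑ v : Fin N → Bool,
          F u b * G v c * ∏ i, (W i (x i) (y i) * (β i (x i) (u i) * γ i (y i) (v i)))
        = ∑ x : Fin N → Fin 4, ∑ u : Fin N → Bool, ∑ v : Fin N → Bool, ∑ y : Fin N → Fin 4,
          F u b * G v c * ∏ i, (W i (x i) (y i) * (β i (x i) (u i) * γ i (y i) (v i))) := by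
          apply Finset.sum_congr rfl; intro x _
          rw [Finset.sum_comm]
          apply Finset.sum_congr rfl; intro u _
          rw [Finset.sum_comm]
      _ = ∑ u : Fin N → Bool, ∑ v : Fin N → Bool, ∑ x : Fin N → Fin 4, ∑ y : Fin N → Fin 4,
          F u b * G v c * ∏ i, (W i (x i) (y i) * (β i (x i) (u i) * γ i (y i) (v i))) := by
          rw [Finset.sum_comm]
          apply Finset.sum_congr rfl; intro u _
          rw [Finset.sum_comm]
  -- marginals
  have hA : ∀ i u, ∑ v, Q i u v = A i u := by
    intro i u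
    simp only [Q, A]
    rw [Finset.sum_comm]
    apply Finset.sum_congr rfl; intro x _
    rw [Finset.sum_comm]
    apply Finset.sum_congr rfl; intro y _
    rw [← Finset.mul_sum, ← Finset.mul_sum, (hγ i).2, mul_one]
  have hB : ∀ i v, ∑ u, Q i u v = B i v := by
    intro i v
    simp only [Q, B]
    rw [Finset.sum_comm]
    apply Finset.sum_congr rfl; intro x _
    rw [Finset.sum_comm]
    apply Finset.sum_congr rfl; intro y _
    rw [← Finset.mul_sum, ← Finset.sum_mul, (hβ i).2, one_mul]
  have hT1 : ∀ i, ∑ u, A i u = T i := by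
    intro i
    simp only [A, T]
    rw [Finset.sum_comm]
    apply Finset.sum_congr rfl; intro x _
    rw [Finset.sum_comm]
    apply Finset.sum_congr rfl; intro y _
    rw [← Finset.mul_sum, (hβ i).2, mul_one]
  have hT2 : ∀ i, ∑ v, B i v = T i := by
    intro i
    simp only [B, T]
    rw [Finset.sum_comm]
    apply Finset.sum_congr rfl; intro x _
    rw [Finset.sum_comm]
    apply Finset.sum_congr rfl; intro y _
    rw [← Finset.mul_sum, (hγ i).2, mul_one]
  have mX : ∀ b, ∑ c', joint a KX KY (fun z s => ∏ i, κ i (z i) (s i)) b c' s =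
      ∑ u : Fin N → Bool, F u b * ∏ i, A i (u i) := by
    intro b
    simp only [hjoint]
    rw [Finset.sum_comm]
    apply Finset.sum_congr rfl; intro u _
    rw [Finset.sum_comm]
    have e : ∀ v : Fin N → Bool, ∑ c', F u b * G v c' * ∏ i, Q i (u i) (v i) =
        F u b * ∏ i, Q i (u i) (v i) := by
      intro v
      rw [← Finset.sum_mul, ← Finset.mul_sum, hG.2, mul_one]
    simp only [e, ← Finset.mul_sum]
    congr 1
    rw [← Fintype.prod_sum (fun i v => Q i (u i) v)]
    exact Finset.prod_congr rfl fun i _ => hA i (u i)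
  have mY : ∀ c, ∑ b', joint a KX KY (fun z s => ∏ i, κ i (z i) (s i)) b' c s =
      ∑ v : Fin N → Bool, G v c * ∏ i, B i (v i) := by
    intro c
    simp only [hjoint]
    have e0 : ∀ b', ∑ u : Fin N → Bool, ∑ v : Fin N → Bool, F u b' * G v c * ∏ i, Q i (u i) (v i) =
        ∑ v : Fin N → Bool, ∑ u : Fin N → Bool, F u b' * G v c * ∏ i, Q i (u i) (v i) := fun b' =>
      Finset.sum_comm
    simp only [e0]
    rw [Finset.sum_comm]
    apply Finset.sum_congr rfl; intro v _
    rw [Finset.sum_comm]
    have e : ∀ u : Fin N → Bool, ∑ b', F u b' * G v c * ∏ i, Q i (u i) (v i) =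
        G v c * ∏ i, Q i (u i) (v i) := by
      intro u
      rw [← Finset.sum_mul, ← Finset.sum_mul, hF.2, one_mul]
    simp only [e, ← Finset.mul_sum]
    congr 1
    rw [← Fintype.prod_sum (fun i u => Q i u (v i))]
    exact Finset.prod_congr rfl fun i _ => hB i (v i)
  have mT : ∑ b', ∑ c', joint a KX KY (fun z s => ∏ i, κ i (z i) (s i)) b' c' s = ∏ i, T i := by
    simp only [mX]
    rw [Finset.sum_comm]
    simp only [← Finset.sum_mul, hF.2, one_mul]
    rw [← Fintype.prod_sum (fun i u => A i u)]
    exact Finset.prod_congr rfl fun i _ => hT1 i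
  rw [mT, mX, mY, hjoint, Finset.sum_mul_sum, Finset.sum_mul]
  apply Finset.sum_congr rfl; intro u _
  rw [Finset.sum_mul]
  apply Finset.sum_congr rfl; intro v _
  have e : (∏ i, Q i (u i) (v i)) * ∏ i, T i = (∏ i, A i (u i)) * ∏ i, B i (v i) := by
    rw [← Finset.prod_mul_distrib, ← Finset.prod_mul_distrib]
    exact Finset.prod_congr rfl fun i _ => hQ i (u i) (v i)
  rw [mul_assoc, e]
  ring

/-! ### One copy -/

/-- For one copy every binarization is letterwise. -/
theorem letterwise_one (K : (Fin 1 → Fin 4) → Bool → ℝ) (hK : IsKernel K) : Letterwise K := by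
  refine ⟨fun _ x u => K (fun _ => x) u, fun u b => if u 0 = b then 1 else 0, fun _ => ?_, ?_, ?_⟩
  · exact ⟨fun x b => hK.1 _ b, fun x => hK.2 _⟩
  · refine ⟨fun u b => ?_, fun u => ?_⟩
    · dsimp only
      split_ifs
      · norm_num
      · exact le_rfl
    · dsimp only
      rw [Finset.sum_ite_eq]
      simp
  · intro x b
    have hx : ∀ i : Fin 1, (fun _ : Fin 1 => x i) = x := by
      intro i
      funext j
      rw [Subsingleton.elim j i]
    rw [Finset.sum_eq_single (fun _ => b)]
    · simp [hx]
    · intro u _ hu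
      have : u 0 ≠ b := by
        intro h
        apply hu
        funext i
        rw [Subsingleton.elim i 0, h]
      simp [this]
    · simp

/-- **Main result.** Let `a ≥ 3/4`.  For one copy (`N = 1`) and every pair of binarizations, Eve has
a channel of `Z` given whose output the binarizations are conditionally independent.  The same holds
for every number `N` of copies and every pair of letterwise binarizations. -/
theorem result (a : ℝ) (ha : 3/4 ≤ a) :
    (∀ KX KY : (Fin 1 → Fin 4) → Bool → ℝ, IsKernel KX → IsKernel KY → EveCan a KX KY) ∧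
    (∀ (N : ℕ) (KX KY : (Fin N → Fin 4) → Bool → ℝ), Letterwise KX → Letterwise KY →
      EveCan a KX KY) :=
  ⟨fun KX KY hX hY => letterwise ha (letterwise_one KX hX) (letterwise_one KY hY),
    fun _ _ _ hX hY => letterwise ha hX hY⟩

end Pool.Agent.Results.MP_c084cb_lc.LetterwiseBinarizations
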