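import Pool.Agent.Helper841_BS.Channel

/-!
# For `0 < a < 1/8` binarization independence fails, already for one copy

For every `0 < a < 1/8` there are binarizations of `X` and of `Y` (`N = 1`) which are conditionally
dependent given every channel of `Z` into a countable set.
-/

set_option autoImplicit false

namespace Pool.Agent.Results.MP_c084cb_lc.SmallParameter

open Pool.Agent.Helper841_BS

/-- The probability that the output of `KX` (applied to `X^N`), the output of `KY` (applied to
`Y^N`) and the output of the channel `KZ` (applied to `Z^N`) are `b`, `c` and `s`. -/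
noncomputable def joint (a : ℝ) {N : ℕ} {S : Type} (KX KY : (Fin N → Fin 4) → Bool → ℝ)
    (KZ : (Fin N → ZT) → S → ℝ) (b c : Bool) (s : S) : ℝ :=
  ∑ x : Fin N → Fin 4, ∑ y : Fin N → Fin 4,
    (∏ i, P a (x i) (y i)) * (KX x b * KY y c * KZ (fun i => Z (x i) (y i)) s)

/-- The two outputs are conditionally independent given each value of the output of the channel
that has positive probability. -/
def CondIndep (a : ℝ) {N : ℕ} {S : Type} (KX KY : (Fin N → Fin 4) → Bool → ℝ)
    (KZ : (Fin N → ZT) → S → ℝ) : Prop :=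
  ∀ s, 0 < (∑ b, ∑ c, joint a KX KY KZ b c s) → ∀ b c,
    joint a KX KY KZ b c s * (∑ b', ∑ c', joint a KX KY KZ b' c' s) =
      (∑ c', joint a KX KY KZ b c' s) * (∑ b', joint a KX KY KZ b' c s)

/-- `K` is a stochastic map from `A` to the (finite or countable) set `S`. -/
def IsChannel {A S : Type} (K : A → S → ℝ) : Prop :=
  (∀ a s, 0 ≤ K a s) ∧ ∀ a, HasSum (K a) 1

/-- the binarization `1_{x ≥ 2}` -/
noncomputable def bit (x : Fin 1 → Fin 4) (b : Bool) : ℝ :=
  if decide (2 ≤ (x 0).val) = b then 1 else 0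

theorem bit_isKernel : IsKernel bit := by
  refine ⟨fun x b => ?_, fun x => ?_⟩
  · unfold bit
    split_ifs
    · norm_num
    · exact le_rfl
  · rw [Fintype.sum_bool]
    unfold bit
    by_cases h : 2 ≤ (x 0).val
    · simp [h]
    · simp [h]

theorem sum_one (F : (Fin 1 → Fin 4) → ℝ) : ∑ x, F x = ∑ x : Fin 4, F (fun _ => x) := by
  rw [← (Equiv.funUnique (Fin 1) (Fin 4)).symm.sum_comp]
  rfl

theorem joint_one (a : ℝ) {S : Type} (KZ : (Fin 1 → ZT) → S → ℝ) (b c : Bool) (s : S) :
    joint a bit bit KZ b c s = ∑ x : Fin 4, ∑ y : Fin 4,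
      P a x y * (bit (fun _ => x) b * bit (fun _ => y) c * KZ (fun _ => Z x y) s) := by
  unfold joint
  rw [sum_one]
  apply Finset.sum_congr rfl; intro x _
  rw [sum_one]
  apply Finset.sum_congr rfl; intro y _
  simp

/-- **Main result.** For every `0 < a < 1/8` there are binarizations of `X` and of `Y` (one copy)
such that for every channel of `Z` into a finite or countable set they are conditionally dependent
given its output. -/
theorem result (a : ℝ) (ha0 : 0 < a) (ha : a < 1/8) :
    ∃ KX KY : (Fin 1 → Fin 4) → Bool → ℝ, IsKernel KX ∧ IsKernel KY ∧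
      ∀ (S : Type) (KZ : (Fin 1 → ZT) → S → ℝ), IsChannel KZ → ¬ CondIndep a KX KY KZ := by
  refine ⟨bit, bit, bit_isKernel, bit_isKernel, ?_⟩
  intro S KZ hK hI
  have hc : 0 < 1 + 8 * a := by linarith
  let k : ZT → S → ℝ := fun z s => KZ (fun _ => z) s
  have hk0 : ∀ z s, 0 ≤ k z s := fun z s => hK.1 _ _
  have hk1 : ∀ z, HasSum (k z) 1 := fun z => hK.2 _
  have j00 : ∀ s, joint a bit bit KZ false false s =
      (1/4 * (k (Sum.inl 0) s + k (Sum.inl 1) s)) / (1 + 8 * a) := by
    intro s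
    rw [joint_one]
    simp [Fin.sum_univ_four, bit, P, w, Z, k]
    field_simp
    ring
  have j11 : ∀ s, joint a bit bit KZ true true s =
      (1/4 * (k (Sum.inl 0) s + k (Sum.inl 1) s)) / (1 + 8 * a) := by
    intro s
    rw [joint_one]
    simp [Fin.sum_univ_four, bit, P, w, Z, k]
    field_simp
    try ring
  have j01 : ∀ s, joint a bit bit KZ false true s =
      (a * (k (Sum.inr (0, 2)) s + k (Sum.inr (0, 3)) s + k (Sum.inr (1, 2)) s +
        k (Sum.inr (1, 3)) s)) / (1 + 8 * a) := by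
    intro s
    rw [joint_one]
    simp [Fin.sum_univ_four, bit, P, w, Z, k]
    field_simp
    try ring
  have j10 : ∀ s, joint a bit bit KZ true false s =
      (a * (k (Sum.inr (2, 0)) s + k (Sum.inr (2, 1)) s + k (Sum.inr (3, 0)) s +
        k (Sum.inr (3, 1)) s)) / (1 + 8 * a) := by
    intro s
    rw [joint_one]
    simp [Fin.sum_univ_four, bit, P, w, Z, k]
    field_simp
    try ring
  -- the four numbers satisfy `p00 p11 = p01 p10`
  have hprod : ∀ s, (1/4 * (k (Sum.inl 0) s + k (Sum.inl 1) s)) ^ 2 =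
      (a * (k (Sum.inr (0, 2)) s + k (Sum.inr (0, 3)) s + k (Sum.inr (1, 2)) s +
        k (Sum.inr (1, 3)) s)) *
      (a * (k (Sum.inr (2, 0)) s + k (Sum.inr (2, 1)) s + k (Sum.inr (3, 0)) s +
        k (Sum.inr (3, 1)) s)) := by
    intro s
    have h := fun hp => hI s hp false false
    simp only [Fintype.sum_bool, j00, j11, j01, j10] at h
    have e0 : 0 ≤ 1/4 * (k (Sum.inl 0) s + k (Sum.inl 1) s) := by
      have := hk0 (Sum.inl 0) s
      have := hk0 (Sum.inl 1) s
      positivity
    have e1 : 0 ≤ a * (k (Sum.inr (0, 2)) s + k (Sum.inr (0, 3)) s + k (Sum.inr (1, 2)) s +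
        k (Sum.inr (1, 3)) s) := by
      have := hk0 (Sum.inr (0, 2)) s
      have := hk0 (Sum.inr (0, 3)) s
      have := hk0 (Sum.inr (1, 2)) s
      have := hk0 (Sum.inr (1, 3)) s
      positivity
    have e2 : 0 ≤ a * (k (Sum.inr (2, 0)) s + k (Sum.inr (2, 1)) s + k (Sum.inr (3, 0)) s +
        k (Sum.inr (3, 1)) s) := by
      have := hk0 (Sum.inr (2, 0)) s
      have := hk0 (Sum.inr (2, 1)) s
      have := hk0 (Sum.inr (3, 0)) s
      have := hk0 (Sum.inr (3, 1)) s
      positivity
    revert h e0 e1 e2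
    generalize 1/4 * (k (Sum.inl 0) s + k (Sum.inl 1) s) = q
    generalize a * (k (Sum.inr (0, 2)) s + k (Sum.inr (0, 3)) s + k (Sum.inr (1, 2)) s +
        k (Sum.inr (1, 3)) s) = u
    generalize a * (k (Sum.inr (2, 0)) s + k (Sum.inr (2, 1)) s + k (Sum.inr (3, 0)) s +
        k (Sum.inr (3, 1)) s) = v
    intro h e0 e1 e2
    by_cases hpos : 0 < q + u + v
    · have h1 := h (by
        have : q / (1 + 8 * a) + v / (1 + 8 * a) + (u / (1 + 8 * a) + q / (1 + 8 * a)) =
            (q + (q + u + v)) / (1 + 8 * a) := by field_simp; ring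
        rw [this]
        exact div_pos (by linarith) hc)
      field_simp at h1
      linear_combination h1
    · have : q = 0 := by linarith
      have : u = 0 := by linarith
      have : v = 0 := by linarith
      subst_vars
      norm_num
  have hD : ∀ s, 0 ≤ a * (k (Sum.inr (0, 2)) s + k (Sum.inr (0, 3)) s + k (Sum.inr (1, 2)) s +
        k (Sum.inr (1, 3)) s) + a * (k (Sum.inr (2, 0)) s + k (Sum.inr (2, 1)) s +
        k (Sum.inr (3, 0)) s + k (Sum.inr (3, 1)) s) -
        1/2 * (k (Sum.inl 0) s + k (Sum.inl 1) s) := by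
    intro s
    have h := hprod s
    have e1 : 0 ≤ a * (k (Sum.inr (0, 2)) s + k (Sum.inr (0, 3)) s + k (Sum.inr (1, 2)) s +
        k (Sum.inr (1, 3)) s) := by
      have := hk0 (Sum.inr (0, 2)) s
      have := hk0 (Sum.inr (0, 3)) s
      have := hk0 (Sum.inr (1, 2)) s
      have := hk0 (Sum.inr (1, 3)) s
      positivity
    have e2 : 0 ≤ a * (k (Sum.inr (2, 0)) s + k (Sum.inr (2, 1)) s + k (Sum.inr (3, 0)) s +
        k (Sum.inr (3, 1)) s) := by
      have := hk0 (Sum.inr (2, 0)) s
      have := hk0 (Sum.inr (2, 1)) s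
      have := hk0 (Sum.inr (3, 0)) s
      have := hk0 (Sum.inr (3, 1)) s
      positivity
    revert h e1 e2
    generalize a * (k (Sum.inr (0, 2)) s + k (Sum.inr (0, 3)) s + k (Sum.inr (1, 2)) s +
        k (Sum.inr (1, 3)) s) = u
    generalize a * (k (Sum.inr (2, 0)) s + k (Sum.inr (2, 1)) s + k (Sum.inr (3, 0)) s +
        k (Sum.inr (3, 1)) s) = v
    intro h e1 e2
    have h2 : (1/2 * (k (Sum.inl 0) s + k (Sum.inl 1) s)) ^ 2 ≤ (u + v) ^ 2 := by
      nlinarith [sq_nonneg (u - v)]
    have h3 := abs_le_of_sq_le_sq h2 (by linarith)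
    linarith [(abs_le.1 h3).2]
  have hsum : HasSum (fun s => a * (k (Sum.inr (0, 2)) s + k (Sum.inr (0, 3)) s +
        k (Sum.inr (1, 2)) s + k (Sum.inr (1, 3)) s) + a * (k (Sum.inr (2, 0)) s +
        k (Sum.inr (2, 1)) s + k (Sum.inr (3, 0)) s + k (Sum.inr (3, 1)) s) -
        1/2 * (k (Sum.inl 0) s + k (Sum.inl 1) s))
      (a * (1 + 1 + 1 + 1) + a * (1 + 1 + 1 + 1) - 1/2 * (1 + 1)) := by
    refine HasSum.sub (HasSum.add (HasSum.mul_left a ?_) (HasSum.mul_left a ?_))
      (HasSum.mul_left (1/2) ?_)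
    · exact (((hk1 _).add (hk1 _)).add (hk1 _)).add (hk1 _)
    · exact (((hk1 _).add (hk1 _)).add (hk1 _)).add (hk1 _)
    · exact (hk1 _).add (hk1 _)
  have hfin := hasSum_le hD hasSum_zero hsum
  linarith

end Pool.Agent.Results.MP_c084cb_lc.SmallParameter
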